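import Mathlib

/-!
No matroidal family of graphs contains the complete bipartite graph `K_{m,n}` when
`n > m ^ 2 - m + 1`.
-/

namespace Pool.Agent.Results.MP_41a700_co.NoCompleteBipartite

open SimpleGraph

/-- The edge sets of the subgraphs of `G` that are isomorphic to a member of `P`. -/
def circuits (P : ∀ k : ℕ, SimpleGraph (Fin k) → Prop) {V : Type} (G : SimpleGraph V) :
    Set (Set (Sym2 V)) :=
  {C | ∃ H : G.Subgraph, C = H.edgeSet ∧ ∃ (k : ℕ) (K : SimpleGraph (Fin k)), P k K ∧
    Nonempty (H.coe ≃g K)}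

/-- A matroidal family: a nonempty set of finite connected simple graphs (given by its members
on the vertex sets `Fin k`), closed under isomorphism, such that for every finite simple graph
`G` the edge sets of the subgraphs of `G` isomorphic to a member are the circuits of a matroid
on the edge set of `G`. -/
structure IsMatroidalFamily (P : ∀ k : ℕ, SimpleGraph (Fin k) → Prop) : Prop where
  nonempty : ∃ (k : ℕ) (K : SimpleGraph (Fin k)), P k K
  connected : ∀ (k : ℕ) (K : SimpleGraph (Fin k)), P k K → K.Connected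
  iso : ∀ (k : ℕ) (K K' : SimpleGraph (Fin k)), Nonempty (K ≃g K') → P k K → P k K'
  matroid : ∀ (V : Type) (_ : Finite V) (G : SimpleGraph V),
    ∃ M : Matroid (Sym2 V), M.E = G.edgeSet ∧ ∀ C, M.IsCircuit C ↔ C ∈ circuits P G

/-- The family contains a graph isomorphic to `K_{m,n}`. -/
def ContainsBipartite (P : ∀ k : ℕ, SimpleGraph (Fin k) → Prop) (m n : ℕ) : Prop :=
  ∃ (k : ℕ) (K : SimpleGraph (Fin k)), P k K ∧
    Nonempty (K ≃g completeBipartiteGraph (Fin m) (Fin n))

section

variable {P : ∀ k : ℕ, SimpleGraph (Fin k) → Prop} {m q : ℕ} {W : Type} [Fintype W]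
  [DecidableEq W] {M : Matroid (Sym2 W)}

/-- The edges between two vertex sets. -/
def bip (A B : Finset W) : Set (Sym2 W) := {e | ∃ a ∈ A, ∃ b ∈ B, e = s(a, b)}

/-- The edges inside a vertex set. -/
def inner (A : Finset W) : Set (Sym2 W) := {e | ∃ a ∈ A, ∃ b ∈ A, a ≠ b ∧ e = s(a, b)}

omit [Fintype W] [DecidableEq W] in
theorem bip_circuit {n : ℕ} (hK : ContainsBipartite P m n)
    (hC : ∀ C, M.IsCircuit C ↔ C ∈ circuits P (⊤ : SimpleGraph W)) {A B : Finset W}
    (hAB : Disjoint A B) (hA : A.card = m) (hB : B.card = n) : M.IsCircuit (bip A B) := by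
  rw [hC]
  obtain ⟨k, K, hPK, ⟨e⟩⟩ := hK
  let eA : Fin m ≃ A := (A.equivFinOfCardEq hA).symm
  let eB : Fin n ≃ B := (B.equivFinOfCardEq hB).symm
  let φ : Fin m ⊕ Fin n → W := Sum.elim (fun i => (eA i : W)) fun j => (eB j : W)
  have hne : ∀ i j, (eA i : W) ≠ (eB j : W) := by
    intro i j h
    exact Finset.disjoint_left.1 hAB (eA i).2 (h ▸ (eB j).2)
  have hφ : Function.Injective φ := by
    rintro (i | i) (j | j) h
    · exact congrArg Sum.inl (eA.injective (Subtype.ext h))
    · exact absurd h (hne i j)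
    · exact absurd h.symm (hne j i)
    · exact congrArg Sum.inr (eB.injective (Subtype.ext h))
  let f : Copy (completeBipartiteGraph (Fin m) (Fin n)) (⊤ : SimpleGraph W) :=
    ⟨⟨φ, fun {a b} h => by
      show φ a ≠ φ b
      exact fun h' => h.ne (hφ h')⟩, hφ⟩
  refine ⟨f.toSubgraph, ?_, k, K, hPK, ⟨f.isoToSubgraph.symm.trans e.symm⟩⟩
  ext x
  induction x using Sym2.ind with
  | _ x y =>
    rw [Subgraph.mem_edgeSet]
    constructor
    · rintro ⟨a, ha, b, hb, h⟩
      have key : f.toSubgraph.Adj a b := by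
        refine ⟨Sum.inl (eA.symm ⟨a, ha⟩), Sum.inr (eB.symm ⟨b, hb⟩), ?_, ?_, ?_⟩
        · show (completeBipartiteGraph (Fin m) (Fin n)).Adj _ _
          simp
        · show ((eA (eA.symm ⟨a, ha⟩) : A) : W) = a
          rw [Equiv.apply_symm_apply]
        · show ((eB (eB.symm ⟨b, hb⟩) : B) : W) = b
          rw [Equiv.apply_symm_apply]
      rcases Sym2.eq_iff.1 h with ⟨rfl, rfl⟩ | ⟨rfl, rfl⟩
      · exact key
      · exact key.symm
    · rintro ⟨u, v, huv, rfl, rfl⟩
      have huv' : (completeBipartiteGraph (Fin m) (Fin n)).Adj u v := huv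
      rcases u with i | i <;> rcases v with j | j
      · simp at huv'
      · exact ⟨_, (eA i).2, _, (eB j).2, rfl⟩
      · exact ⟨_, (eA j).2, _, (eB i).2, Sym2.eq_swap⟩
      · simp at huv'

omit [Fintype W] in
theorem eRk_step (hK : ContainsBipartite P m (q + 1)) (hm : 1 ≤ m)
    (hE : M.E = (⊤ : SimpleGraph W).edgeSet)
    (hC : ∀ C, M.IsCircuit C ↔ C ∈ circuits P (⊤ : SimpleGraph W)) (V' : Finset W)
    (hV' : m + q ≤ V'.card) {v : W} (hv : v ∉ V') :
    M.eRk (inner (insert v V')) ≤ M.eRk (inner V') + ((m - 1 : ℕ) : ℕ∞) := by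
  obtain ⟨U, hUV, hU⟩ := Finset.exists_subset_card_eq (s := V') (n := m - 1) (by omega)
  have hsub : inner (insert v V') ⊆ M.closure (inner V' ∪ bip {v} U) := by
    have hground : ∀ {a b : W}, a ≠ b → s(a, b) ∈ M.E := by
      intro a b hab
      rw [hE, mem_edgeSet]
      exact hab
    have hmem : ∀ e ∈ inner V' ∪ bip {v} U, e ∈ M.closure (inner V' ∪ bip {v} U) := by
      intro e he
      refine M.mem_closure_of_mem he ?_
      rintro x (⟨a, ha, b, hb, hab, rfl⟩ | ⟨a, ha, b, hb, rfl⟩)
      · exact hground hab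
      · rw [Finset.mem_singleton] at ha
        subst ha
        exact hground fun h => hv (h ▸ hUV hb)
    -- edges at the new vertex
    have hnew : ∀ y ∈ V', s(v, y) ∈ M.closure (inner V' ∪ bip {v} U) := by
      intro y hy
      by_cases hyU : y ∈ U
      · exact hmem _ (Or.inr ⟨v, Finset.mem_singleton_self v, y, hyU, rfl⟩)
      · have hcard : (insert y U).card = m := by
          rw [Finset.card_insert_of_notMem hyU, hU]; omega
        have hsubV : insert y U ⊆ V' := Finset.insert_subset hy hUV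
        obtain ⟨B, hBV, hB⟩ := Finset.exists_subset_card_eq (s := V' \ insert y U) (n := q) (by
          rw [Finset.card_sdiff_of_subset hsubV, hcard]; omega)
        have hvB : v ∉ B := fun h => hv (Finset.mem_sdiff.1 (hBV h)).1
        have hdis : Disjoint (insert y U) (insert v B) := by
          rw [Finset.disjoint_left]
          intro a ha hb
          rcases Finset.mem_insert.1 hb with rfl | hb
          · exact hv (hsubV ha)
          · exact (Finset.mem_sdiff.1 (hBV hb)).2 ha
        have hcirc := bip_circuit hK hC hdis hcard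
          (by rw [Finset.card_insert_of_notMem hvB, hB])
        have he : s(v, y) ∈ bip (insert y U) (insert v B) :=
          ⟨y, Finset.mem_insert_self _ _, v, Finset.mem_insert_self _ _, Sym2.eq_swap⟩
        refine M.closure_subset_closure ?_ (hcirc.mem_closure_sdiff_singleton_of_mem he)
        rintro x ⟨⟨a, ha, b, hb, rfl⟩, hx⟩
        rcases Finset.mem_insert.1 hb with rfl | hb
        · rcases Finset.mem_insert.1 ha with rfl | ha
          · exact absurd Sym2.eq_swap hx
          · exact Or.inr ⟨b, Finset.mem_singleton_self _, a, ha, Sym2.eq_swap⟩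
        · refine Or.inl ⟨a, hsubV ha, b, (Finset.mem_sdiff.1 (hBV hb)).1, ?_, rfl⟩
          rintro rfl
          exact (Finset.mem_sdiff.1 (hBV hb)).2 ha
    rintro e ⟨a, ha, b, hb, hab, rfl⟩
    rcases Finset.mem_insert.1 ha with ha' | ha'
    · rcases Finset.mem_insert.1 hb with hb' | hb'
      · exact absurd (ha'.trans hb'.symm) hab
      · rw [ha']; exact hnew b hb'
    · rcases Finset.mem_insert.1 hb with hb' | hb'
      · rw [Sym2.eq_swap, hb']
        exact hnew a ha'
      · exact hmem _ (Or.inl ⟨a, ha', b, hb', hab, rfl⟩)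
  calc M.eRk (inner (insert v V')) ≤ M.eRk (M.closure (inner V' ∪ bip {v} U)) :=
        M.eRk_mono hsub
    _ = M.eRk (inner V' ∪ bip {v} U) := M.eRk_closure_eq _
    _ ≤ M.eRk (inner V') + (bip {v} U).encard := M.eRk_union_le_eRk_add_encard _ _
    _ ≤ M.eRk (inner V') + ((m - 1 : ℕ) : ℕ∞) := by
        gcongr
        have h1 : bip {v} U ⊆ ((U.image fun u => s(v, u) : Finset (Sym2 W)) : Set (Sym2 W)) := by
          rintro x ⟨a, ha, b, hb, rfl⟩
          rw [Finset.mem_singleton] at ha
          subst ha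
          exact Finset.mem_coe.2 (Finset.mem_image.2 ⟨b, hb, rfl⟩)
        refine (Set.encard_le_encard h1).trans ?_
        rw [Set.encard_coe_eq_coe_finsetCard]
        exact_mod_cast Finset.card_image_le.trans hU.le

theorem eRk_inner (hK : ContainsBipartite P m (q + 1)) (hm : 1 ≤ m)
    (hE : M.E = (⊤ : SimpleGraph W).edgeSet)
    (hC : ∀ C, M.IsCircuit C ↔ C ∈ circuits P (⊤ : SimpleGraph W)) :
    ∀ (k : ℕ) (V' : Finset W), V'.card = k →
      M.eRk (inner V') ≤ (((m + q) * (m + q) + (m - 1) * k : ℕ) : ℕ∞) := by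
  intro k
  induction k with
  | zero =>
    intro V' hV'
    have : inner V' = ∅ := by
      rw [Finset.card_eq_zero] at hV'
      subst hV'
      ext x
      constructor
      · rintro ⟨a, ha, -⟩
        exact absurd ha (Finset.notMem_empty a)
      · intro h
        exact absurd h (Set.notMem_empty x)
    rw [this, M.eRk_empty]
    exact zero_le
  | succ k ih =>
    intro V' hV'
    by_cases hk : k < m + q
    · -- few vertices
      have h1 : inner V' ⊆ (((V' ×ˢ V').image fun p => s(p.1, p.2) : Finset (Sym2 W)) :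
          Set (Sym2 W)) := by
        rintro x ⟨a, ha, b, hb, -, rfl⟩
        exact Finset.mem_coe.2 (Finset.mem_image.2 ⟨(a, b), Finset.mem_product.2 ⟨ha, hb⟩, rfl⟩)
      refine (M.eRk_le_encard _).trans ((Set.encard_le_encard h1).trans ?_)
      rw [Set.encard_coe_eq_coe_finsetCard]
      have h2 : ((V' ×ˢ V').image fun p => s(p.1, p.2)).card ≤ (k + 1) * (k + 1) := by
        refine Finset.card_image_le.trans ?_
        rw [Finset.card_product, hV']
      have h3 : (k + 1) * (k + 1) ≤ (m + q) * (m + q) := Nat.mul_le_mul (by omega) (by omega)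
      exact_mod_cast h2.trans (h3.trans (Nat.le_add_right _ _))
    · obtain ⟨v, hv⟩ : V'.Nonempty := by
        rw [← Finset.card_pos]; omega
      have hcard : (V'.erase v).card = k := by
        rw [Finset.card_erase_of_mem hv, hV']; rfl
      have h1 := eRk_step hK hm hE hC (V'.erase v) (by omega) (Finset.notMem_erase v V')
      rw [Finset.insert_erase hv] at h1
      refine h1.trans ?_
      refine (add_le_add_left (ih _ hcard) _).trans ?_
      rw [← Nat.cast_add]
      apply le_of_eq
      congr 1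
      ring

end

section lower

variable {P : ∀ k : ℕ, SimpleGraph (Fin k) → Prop} {m q t : ℕ}

/-- `t` blocks with `m + q` vertices each, and one more vertex. -/
abbrev Blk (t m q : ℕ) : Type := Option (Fin t × (Fin m ⊕ Fin q))

/-- The edges of `t` disjoint copies of `K_{m,q}`. -/
def big (t m q : ℕ) : Set (Sym2 (Blk t m q)) :=
  Set.range fun p : Fin t × Fin m × Fin q => s(some (p.1, Sum.inl p.2.1), some (p.1, Sum.inr p.2.2))

theorem big_encard : (big t m q).encard = ((t * (m * q) : ℕ) : ℕ∞) := by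
  have hinj : Function.Injective fun p : Fin t × Fin m × Fin q =>
      (s(some (p.1, Sum.inl p.2.1), some (p.1, Sum.inr p.2.2)) : Sym2 (Blk t m q)) := by
    rintro ⟨j, a, b⟩ ⟨j', a', b'⟩ h
    rcases Sym2.eq_iff.1 h with ⟨h1, h2⟩ | ⟨h1, h2⟩
    · simp only [Option.some.injEq, Prod.mk.injEq, Sum.inl.injEq, Sum.inr.injEq] at h1 h2
      obtain ⟨rfl, rfl⟩ := h1
      obtain ⟨-, rfl⟩ := h2
      rfl
    · simp at h1
  unfold big
  rw [← Set.image_univ, hinj.encard_image, Set.encard_univ, ENat.card_eq_coe_fintype_card]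
  simp

theorem big_indep (hfam : IsMatroidalFamily P) (hK : ContainsBipartite P m (q + 1)) (hm : 1 ≤ m)
    {M : Matroid (Sym2 (Blk t m q))} (hE : M.E = (⊤ : SimpleGraph (Blk t m q)).edgeSet)
    (hC : ∀ C, M.IsCircuit C ↔ C ∈ circuits P (⊤ : SimpleGraph (Blk t m q))) :
    M.Indep (big t m q) := by
  classical
  have hI : big t m q ⊆ M.E := by
    rintro x ⟨⟨j, a, b⟩, rfl⟩
    rw [hE, mem_edgeSet]
    simp
  rw [Matroid.indep_iff_forall_subset_not_isCircuit hI]
  · intro C hCI hcirc
    obtain ⟨H, rfl, k, K, hPK, ⟨e⟩⟩ := (hC C).1 hcirc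
    -- the block of a vertex
    let β : Blk t m q → Option (Fin t) := fun w => w.map Prod.fst
    have hβ : ∀ x y, H.Adj x y → β x = β y := by
      intro x y hxy
      obtain ⟨⟨j, a, b⟩, h⟩ := hCI (Subgraph.mem_edgeSet.2 hxy)
      rcases Sym2.eq_iff.1 h with ⟨rfl, rfl⟩ | ⟨rfl, rfl⟩ <;> rfl
    have hconn : H.coe.Connected := (Iso.connected_iff e).2 (hfam.connected k K hPK)
    have hwalk : ∀ (x y : H.verts) (p : H.coe.Walk x y), β x = β y := by
      intro x y p
      induction p with
      | nil => rfl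
      | cons hadj p ih => exact (hβ _ _ hadj).trans ih
    have hconst : ∀ x y : H.verts, β x = β y := by
      intro x y
      obtain ⟨p⟩ := hconn.preconnected x y
      exact hwalk x y p
    -- an edge
    obtain ⟨e₀, he₀⟩ := hcirc.nonempty
    obtain ⟨⟨j, a, b⟩, rfl⟩ := hCI he₀
    have hadj₀ := Subgraph.mem_edgeSet.1 he₀
    let A : Finset (Blk t m q) := Finset.univ.image fun i => some (j, Sum.inl i)
    let B : Finset (Blk t m q) := insert none (Finset.univ.image fun i => some (j, Sum.inr i))
    have hA : A.card = m := by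
      rw [Finset.card_image_of_injective, Finset.card_univ, Fintype.card_fin]
      intro i i' h
      simpa using h
    have hB : B.card = q + 1 := by
      rw [Finset.card_insert_of_notMem (by simp), Finset.card_image_of_injective,
        Finset.card_univ, Fintype.card_fin]
      intro i i' h
      simpa using h
    have hAB : Disjoint A B := by
      rw [Finset.disjoint_left]
      intro x hx hy
      obtain ⟨i, -, rfl⟩ := Finset.mem_image.1 hx
      rcases Finset.mem_insert.1 hy with h | h
      · exact absurd h (by simp)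
      · obtain ⟨i', -, h⟩ := Finset.mem_image.1 h
        simp at h
    have hcirc' := bip_circuit hK hC hAB hA hB
    have hsub : H.edgeSet ⊆ bip A B := by
      intro x hx
      obtain ⟨⟨j', a', b'⟩, rfl⟩ := hCI hx
      have hadj := Subgraph.mem_edgeSet.1 hx
      have h1 := hconst ⟨_, H.edge_vert hadj⟩ ⟨_, H.edge_vert hadj₀⟩
      have h2 : j' = j := by
        have : (some j' : Option (Fin t)) = some j := h1
        simpa using this
      subst h2
      refine ⟨_, Finset.mem_image.2 ⟨a', Finset.mem_univ _, rfl⟩, _,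
        Finset.mem_insert_of_mem (Finset.mem_image.2 ⟨b', Finset.mem_univ _, rfl⟩), rfl⟩
    have heq := hcirc.eq_of_subset_isCircuit hcirc' hsub
    have hmem : s(some (j, Sum.inl (⟨0, hm⟩ : Fin m)), none) ∈ bip A B :=
      ⟨_, Finset.mem_image.2 ⟨⟨0, hm⟩, Finset.mem_univ _, rfl⟩, none,
        Finset.mem_insert_self _ _, rfl⟩
    rw [← heq] at hmem
    obtain ⟨⟨j', a', b'⟩, h⟩ := hCI hmem
    rcases Sym2.eq_iff.1 h with ⟨-, h2⟩ | ⟨h1, -⟩
    · simp at h2
    · simp at h1

end lower

/-- No matroidal family contains `K_{m,n}` if `m ≥ 1` and `n > m ^ 2 - m + 1`. -/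
theorem result : ∀ m n : ℕ, 1 ≤ m → m ^ 2 + 1 < n + m →
    ∀ P : ∀ k : ℕ, SimpleGraph (Fin k) → Prop, IsMatroidalFamily P →
      ¬ ContainsBipartite P m n := by
  classical
  intro m n hm hn P hfam hK
  obtain ⟨q, rfl⟩ : ∃ q, n = q + 1 := by
    refine ⟨n - 1, ?_⟩
    rcases Nat.eq_zero_or_pos n with h | h
    · subst h
      nlinarith
    · omega
  let t := (m + q) * (m + q) + m
  obtain ⟨M, hE, hC⟩ := hfam.matroid (Blk t m q) inferInstance ⊤
  have h1 := big_indep (t := t) hfam hK hm hE hC
  have h2 : big t m q ⊆ inner (Finset.univ : Finset (Blk t m q)) := by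
    rintro x ⟨⟨j, a, b⟩, rfl⟩
    exact ⟨_, Finset.mem_univ _, _, Finset.mem_univ _, by simp, rfl⟩
  have h3 := h1.encard_le_eRk_of_subset h2
  rw [big_encard] at h3
  have h4 := eRk_inner hK hm hE hC _ Finset.univ rfl
  have h5 := h3.trans h4
  have h6 : Finset.univ.card (α := Blk t m q) = t * (m + q) + 1 := by
    rw [Finset.card_univ]; simp
  rw [h6] at h5
  have h7 : t * (m * q) ≤ (m + q) * (m + q) + (m - 1) * (t * (m + q) + 1) := by
    exact_mod_cast h5
  obtain ⟨m', rfl⟩ : ∃ m', m = m' + 1 := ⟨m - 1, by omega⟩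
  rw [Nat.add_sub_cancel] at h7
  have h8 : m' * (m' + 1 + q) + 1 ≤ (m' + 1) * q := by nlinarith
  have h9 : t * (m' * (m' + 1 + q) + 1) ≤ t * ((m' + 1) * q) := Nat.mul_le_mul_left t h8
  have h10 : t = (m' + 1 + q) * (m' + 1 + q) + (m' + 1) := rfl
  nlinarith

end Pool.Agent.Results.MP_41a700_co.NoCompleteBipartite
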